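import Mathlib
import Pool.Agent.R449.SP.Sil

set_option autoImplicit false

/-!
# Prime values in almost every real solution of the Pell recursion

The real solutions of `T (n + 2) = 2 T (n + 1) + T n` are the sequences
`T β B n = β (1 + √2) ^ n + B (1 - √2) ^ n`; the Pell numbers are the member
`β = 1 / (2 √2)`, `B = -1 / (2 √2)`.  For a prime `l` consider the `l`-rough part (the product, with
multiplicity, of the prime factors larger than `l`) of `⌊T β B l⌋`; for the Pell numbers and `l ≥ 5` it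
is `P_l`.  We prove that for every `B` and almost every `β > 0` these rough parts are prime with the
expected frequency, along all primes and along every set of primes.
-/

namespace Pool.Agent.Results.MP_c66c79_nt.PellLaw

open Filter Topology MeasureTheory Asymptotics

/-- The Pell numbers. -/
def pell : ℕ → ℕ
  | 0 => 0
  | 1 => 1
  | (n + 2) => 2 * pell (n + 1) + pell n

/-- The real solutions of `T (n + 2) = 2 T (n + 1) + T n`. -/
noncomputable def T (β B : ℝ) (n : ℕ) : ℝ := β * (1 + Real.sqrt 2) ^ n + B * (1 - Real.sqrt 2) ^ n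

/-- The product, with multiplicity, of the prime factors of `m` that are larger than `l`. -/
def roughPart (l m : ℕ) : ℕ := (m.primeFactorsList.filter (fun r => l < r)).prod

open Classical in
/-- The number of primes `l ≤ n` in `S` for which the `l`-rough part of `⌊Z l⌋` is prime. -/
noncomputable def M (S : Set ℕ) (Z : ℕ → ℝ) (n : ℕ) : ℕ :=
  ((Finset.range (n + 1)).filter (fun l => l.Prime ∧ l ∈ S ∧ (roughPart l ⌊Z l⌋₊).Prime)).card

open Classical in
/-- The sum of `log l / l` over the primes `l ≤ n` in `S`. -/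
noncomputable def V (S : Set ℕ) (n : ℕ) : ℝ :=
  ∑ l ∈ (Finset.range (n + 1)).filter (fun l => l.Prime ∧ l ∈ S), Real.log l / l

/-- The laws for the sequence `Z`. -/
def Laws (Z : ℝ → ℕ → ℝ) : Prop :=
  (∀ᵐ β : ℝ, 0 < β →
    (fun n : ℕ => (M Set.univ (Z β) n : ℝ) -
      Real.exp Real.eulerMascheroniConstant / Real.log (1 + Real.sqrt 2) * Real.log n) =O[atTop]
    (fun n : ℕ => Real.sqrt (Real.log n) * (Real.log (Real.log n)) ^ ((5 : ℝ) / 2))) ∧
  (∀ S : Set ℕ, Tendsto (V S) atTop atTop → ∀ᵐ β : ℝ, 0 < β →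
    (fun n : ℕ => (M S (Z β) n : ℝ) -
      Real.exp Real.eulerMascheroniConstant / Real.log (1 + Real.sqrt 2) * V S n) =O[atTop]
    (fun n : ℕ => Real.sqrt (V S n * Real.log (Real.log n)) *
      (Real.log (V S n * Real.log (Real.log n))) ^ 2)) ∧
  (∀ S : Set ℕ, ∀ᵐ β : ℝ, 0 < β →
    ({l : ℕ | l.Prime ∧ l ∈ S ∧ (roughPart l ⌊Z β l⌋₊).Prime}.Infinite ↔ Tendsto (V S) atTop atTop))

lemma V_eq (S : Set ℕ) (n : ℕ) : V S n = Pool.Agent.TH888.R.VS S n := by
  classical
  unfold V Pool.Agent.TH888.R.VS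
  rw [Finset.sum_filter]
  refine Finset.sum_congr rfl fun p _ => ?_
  by_cases h : p.Prime ∧ p ∈ S
  · rw [if_pos h, if_pos ⟨h.2, h.1⟩]
    rfl
  · rw [if_neg h, if_neg fun h1 => h ⟨h1.2, h1.1⟩]

lemma M_eq (S : Set ℕ) (Z : ℕ → ℝ) (n : ℕ) :
    M S Z n = Pool.Agent.TH888.R.cS S (fun l => ⌊Z l⌋₊) n := by
  classical
  unfold M Pool.Agent.TH888.R.cS
  rfl

lemma laws_of {Z : ℝ → ℕ → ℝ} (h : ∀ S : Set ℕ, ∀ᵐ β : ℝ, 0 < β →
    Pool.Agent.TH888.R.Pt (fun p => ⌊Z β p⌋₊)
      (Real.exp Real.eulerMascheroniConstant / Real.log (1 + Real.sqrt 2)) S) : Laws Z := by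
  have hV : ∀ S, V S = Pool.Agent.TH888.R.VS S := fun S => funext fun n => V_eq S n
  refine ⟨?_, fun S hS => ?_, fun S => ?_⟩
  · filter_upwards [h Set.univ] with β hβ h0
    obtain ⟨B, hB, h⟩ := (hβ h0).law Pool.Agent.TH888.R.VS_univ_tendsto
    simp only [M_eq]
    exact Pool.Agent.TH888.R.bigO_all hB h
  · rw [hV] at hS ⊢
    filter_upwards [h S] with β hβ h0
    obtain ⟨B, hB, h⟩ := (hβ h0).law hS
    simp only [M_eq]
    exact Pool.Agent.TH888.R.bigO_set hB hS h
  · rw [hV]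
    filter_upwards [h S] with β hβ h0
    constructor
    · intro hi
      by_contra hn
      exact hi ((hβ h0).fin hn)
    · exact (hβ h0).inf

lemma T_Y (n : ℕ) : T (1 / (2 * Real.sqrt 2)) (-(1 / (2 * Real.sqrt 2))) n =
    Pool.Agent.R449.SP.Y 1 1 n := by
  unfold T Pool.Agent.R449.SP.Y
  ring

lemma Y_pell (n : ℕ) : Pool.Agent.R449.SP.Y 1 1 n = pell n ∧
    Pool.Agent.R449.SP.Y 1 1 (n + 1) = pell (n + 1) := by
  induction n with
  | zero =>
    have h := (Pool.Agent.R449.SP.XY_succ 1 1 0).2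
    have h0 : Pool.Agent.R449.SP.Y 1 1 0 = 0 := by unfold Pool.Agent.R449.SP.Y; simp
    have h1 : Pool.Agent.R449.SP.X 1 1 0 = 1 := by unfold Pool.Agent.R449.SP.X; norm_num
    refine ⟨by rw [h0]; simp [pell], ?_⟩
    rw [h, h0, h1]
    simp [pell]
  | succ n ih =>
    refine ⟨ih.2, ?_⟩
    have h1 := Pool.Agent.R449.SP.XY_succ 1 1 n
    have h2 := Pool.Agent.R449.SP.XY_succ 1 1 (n + 1)
    have h3 : pell (n + 1 + 1) = 2 * pell (n + 1) + pell n := rfl
    rw [h3]
    push_cast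
    rw [← ih.1, ← ih.2]
    linarith [h1.1, h1.2, h2.1, h2.2]

/-- **The counting law for the real solutions of the Pell recursion.** -/
theorem result :
    (∀ (β B : ℝ) (n : ℕ), T β B (n + 2) = 2 * T β B (n + 1) + T β B n) ∧
    (∀ n : ℕ, T (1 / (2 * Real.sqrt 2)) (-(1 / (2 * Real.sqrt 2))) n = pell n) ∧
    (∀ l : ℕ, l.Prime → 5 ≤ l →
      roughPart l ⌊T (1 / (2 * Real.sqrt 2)) (-(1 / (2 * Real.sqrt 2))) l⌋₊ = pell l) ∧
    (∀ B : ℝ, Laws (fun β => T β B)) := by
  refine ⟨fun β B n => ?_, fun n => ?_, fun l hl h5 => ?_, fun B => ?_⟩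
  · have h := Pool.Agent.R449.SP.s2_sq
    unfold T
    rw [pow_succ, pow_succ, pow_succ, pow_succ]
    linear_combination (β * (1 + Real.sqrt 2) ^ n + B * (1 - Real.sqrt 2) ^ n) * h
  · rw [T_Y]
    exact (Y_pell n).1
  · obtain ⟨k, hk⟩ := hl.odd_of_ne_two (by omega)
    subst hk
    have h1 := (Pool.Agent.R449.SP.rough_sol h5 hl).2
    have h2 := (Pool.Agent.R449.SP.XY_sol k).2
    have h3 := (Y_pell (2 * k + 1)).1
    rw [h2] at h3
    have h4 : (Pool.Agent.R449.SP.sol k).2 = pell (2 * k + 1) := by exact_mod_cast h3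
    rw [T_Y, ← h4]
    exact h1
  · exact laws_of fun S => Pool.Agent.H19P.pt_unit Pool.Agent.R449.SP.one_lt_al
      Pool.Agent.R449.SP.al_add Pool.Agent.R449.SP.al_mul B S

end Pool.Agent.Results.MP_c66c79_nt.PellLaw
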