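import Mathlib
import Pool.Agent.H447R2.ML.Spec
import Pool.Agent.R242.PE.Hyp

set_option autoImplicit false

/-!
# Primes among the Pell numbers: the real points of the hyperbola `p² - 2 r² = -1`

The Pell numbers with odd index are the second coordinates of the integral points `(p, r)`,
`p, r > 0`, of the hyperbola `p² - 2 r² = -1`, and these points are the orbit of `(1, 1)` under the
automorphism `(p, r) ↦ (3 p + 4 r, 2 p + 3 r)`. Here the orbits of all real points `(y, r)`, `r > 0`,
of the hyperbola are considered: `P y k`, `R y k` are the coordinates of the `k`-th point, so that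
`R 1 k` is the Pell number with the index `2 k + 1`. For an odd prime `l = 2 k + 1` let `W f l` be the
`l`-rough part (the product, with multiplicity, of the prime factors larger than `l`) of the integer
part of `f k`. At `y = 1` nothing is removed for the primes `l ≥ 5`; as a Pell number can be prime
only if its index is prime, Q1 asks whether `W (R 1) l` is prime for infinitely many primes `l`.

We prove that for almost every real number `y` the number of odd primes `l ≤ n` with `W (R y) l`
prime is `(e ^ γ / log (1 + √2)) log n + O((log n) ^ (1/2) (log log n) ^ (5/2))`, that for every set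
`S` and almost every `y` there are infinitely many such primes `l` in `S` if and only if the sum of
`log l / l` over the primes in `S` diverges, and that in this case their number up to `n` is
`(e ^ γ / log (1 + √2)) w + O((w K) ^ (1/2) (log (w K)) ^ 2)`, with `w` the sum of `log l / l` over
the primes `l ≤ n` in `S` and `K = log log n`.
-/

namespace Pool.Agent.Results.MP_c66c79_nt.RealPoints

open Filter Topology MeasureTheory Asymptotics
open Pool.Agent.R242.PE (sN sN_pos sN_odd sN_pos2 sN_norm sN_add sN_succ inf_iff orb point pt_orb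
  orb_norm)

/-- The orbit of a point under `(p, r) ↦ (3 p + 4 r, 2 p + 3 r)`. -/
noncomputable def orbit (x : ℝ × ℝ) : ℕ → ℝ × ℝ
  | 0 => x
  | (k + 1) => (3 * (orbit x k).1 + 4 * (orbit x k).2, 2 * (orbit x k).1 + 3 * (orbit x k).2)

/-- The first coordinate of the `k`-th point of the orbit of `(y, √((1 + y²) / 2))`. -/
noncomputable def P (y : ℝ) (k : ℕ) : ℝ := (orbit (y, Real.sqrt ((1 + y ^ 2) / 2)) k).1

/-- The second coordinate of the `k`-th point of the orbit of `(y, √((1 + y²) / 2))`. -/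
noncomputable def R (y : ℝ) (k : ℕ) : ℝ := (orbit (y, Real.sqrt ((1 + y ^ 2) / 2)) k).2

/-- The product, with multiplicity, of the prime factors of `m` that are larger than `l`. -/
def roughPart (l m : ℕ) : ℕ := (m.primeFactorsList.filter (fun r => l < r)).prod

/-- For `l = 2 k + 1`, the `l`-rough part of the integer part of `f k`. -/
noncomputable def W (f : ℕ → ℝ) (l : ℕ) : ℕ := roughPart l ⌊f (l / 2)⌋₊

open Classical in
/-- The number of odd primes `l ≤ n` in the set `S` for which `W f l` is prime. -/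
noncomputable def M (S : Set ℕ) (f : ℕ → ℝ) (n : ℕ) : ℕ :=
  ((Finset.range (n + 1)).filter (fun l => l.Prime ∧ l ≠ 2 ∧ l ∈ S ∧ (W f l).Prime)).card

open Classical in
/-- The sum of `log l / l` over the primes `l ≤ n` in the set `S`. -/
noncomputable def w (S : Set ℕ) (n : ℕ) : ℝ :=
  ∑ l ∈ (Finset.range (n + 1)).filter (fun l => l.Prime ∧ l ∈ S), Real.log l / l

lemma w_eq (S : Set ℕ) (n : ℕ) : w S n = Pool.Agent.TH888.R.VS S n := by
  classical
  unfold w Pool.Agent.TH888.R.VS
  rw [Finset.sum_filter]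
  refine Finset.sum_congr rfl fun p _ => ?_
  by_cases h : p.Prime ∧ p ∈ S
  · rw [if_pos h, if_pos ⟨h.2, h.1⟩]
    rfl
  · rw [if_neg h, if_neg fun h1 => h ⟨h1.2, h1.1⟩]

lemma orbit_eq (x : ℝ × ℝ) (k : ℕ) : orbit x k = orb x k := by
  induction k with
  | zero => rfl
  | succ k ih => simp only [orbit, orb, ih]

/-- the sequences with the value `0` at `2` -/
noncomputable def seq (f : ℕ → ℝ) (l : ℕ) : ℕ := if l = 2 then 0 else ⌊f (l / 2)⌋₊

lemma prime_seq (f : ℕ → ℝ) (l : ℕ) :
    (Pool.Agent.H305R2.roughPart l (seq f l)).Prime ↔ l ≠ 2 ∧ (W f l).Prime := by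
  by_cases h : l = 2
  · rw [seq, if_pos h]
    constructor
    · intro h1
      exfalso
      have h2 : Pool.Agent.H305R2.roughPart l 0 = 1 := by
        unfold Pool.Agent.H305R2.roughPart
        simp
      rw [h2] at h1
      exact Nat.not_prime_one h1
    · rintro ⟨h1, _⟩
      exact absurd h h1
  · rw [seq, if_neg h]
    exact ⟨fun h1 => ⟨h, h1⟩, fun h1 => h1.2⟩

lemma M_eq (S : Set ℕ) (f : ℕ → ℝ) (n : ℕ) : M S f n = Pool.Agent.TH888.R.cS S (seq f) n := by
  classical
  unfold M Pool.Agent.TH888.R.cS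
  congr 1
  refine Finset.filter_congr fun l _ => ?_
  rw [prime_seq]
  tauto

lemma pt {F : ℝ → ℕ → ℝ} (hF : F = P ∨ F = R) (S : Set ℕ) :
    ∀ᵐ y : ℝ, Pool.Agent.TH888.R.Pt (seq (F y))
      (Real.exp Real.eulerMascheroniConstant / Real.log (1 + Real.sqrt 2)) S := by
  have hP : ∀ y k, P y k = (orb (point y) k).1 := fun y k => by
    show (orbit _ k).1 = _
    rw [orbit_eq]
    rfl
  have hR : ∀ y k, R y k = (orb (point y) k).2 := fun y k => by
    show (orbit _ k).2 = _
    rw [orbit_eq]
    rfl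
  have h2 : ∀ f : ℕ → ℝ, ∀ᶠ l : ℕ in atTop, l.Prime → ⌊f (l / 2)⌋₊ = seq f l := by
    intro f
    filter_upwards [eventually_gt_atTop 2] with l hl _
    rw [seq, if_neg (by omega)]
  filter_upwards [pt_orb S] with y hy
  rcases hF with rfl | rfl
  · refine Pool.Agent.R242.PE.Pt_congr hy.1 ?_
    filter_upwards [h2 (P y)] with l hl hlp
    rw [← hl hlp, hP]
  · refine Pool.Agent.R242.PE.Pt_congr hy.2 ?_
    filter_upwards [h2 (R y)] with l hl hlp
    rw [← hl hlp, hR]

lemma sqrt_one : Real.sqrt ((1 + (1 : ℝ) ^ 2) / 2) = 1 := by norm_num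

lemma one_eq (k : ℕ) : P 1 k = ((sN (2 * k + 1)).1 : ℝ) ∧ R 1 k = ((sN (2 * k + 1)).2 : ℝ) := by
  unfold P R
  rw [sqrt_one]
  induction k with
  | zero => simp [orbit, sN]
  | succ k ih =>
    rw [show 2 * (k + 1) + 1 = (2 * k + 1) + 2 by ring, (sN_add _ 2).1, (sN_add _ 2).2]
    simp only [orbit, ih.1, ih.2]
    simp only [sN]
    push_cast
    constructor <;> ring

lemma V_two (l : ℕ) : Pool.Agent.H447R2.ML.V 2 l = 2 * (sN l).1 ∧
    Pool.Agent.H447R2.ML.U 2 l = (sN l).2 := by
  induction l using Nat.twoStepInduction with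
  | zero => exact ⟨rfl, rfl⟩
  | one => exact ⟨rfl, rfl⟩
  | more n h1 h2 =>
    rw [Pool.Agent.H447R2.ML.U_add_two, Pool.Agent.H447R2.ML.V_add_two, h1.1, h1.2, h2.1, h2.2]
    simp only [sN]
    constructor <;> ring

/-- nothing is removed at `y = 1` -/
lemma W_one {l : ℕ} (hl : l.Prime) (h5 : 5 ≤ l) : W (P 1) l = (sN l).1 ∧ W (R 1) l = (sN l).2 := by
  have hd2 : ¬ l ∣ 2 := fun h => by
    have := Nat.le_of_dvd (by norm_num) h
    omega
  obtain ⟨k, hk⟩ := hl.odd_of_ne_two (by omega)
  have hk2 : l / 2 = k := by omega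
  constructor
  · show Pool.Agent.H305R2.roughPart l ⌊P 1 (l / 2)⌋₊ = (sN l).1
    rw [hk2, (one_eq k).1, ← hk, Nat.floor_natCast]
    refine Pool.Agent.H447R2.ML.roughPart_eq_self (sN_pos l).ne' fun q hq h => ?_
    refine Pool.Agent.H447R2.ML.lt_of_dvd_V 2 hl h5 hd2 hq (fun h' => ?_) ?_
    · have hq2 : q = 2 := (Nat.prime_dvd_prime_iff_eq hq Nat.prime_two).1 h'
      rw [hq2] at h
      have := sN_odd l
      omega
    · rw [(V_two l).1]
      exact h.mul_left 2
  · show Pool.Agent.H305R2.roughPart l ⌊R 1 (l / 2)⌋₊ = (sN l).2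
    rw [hk2, (one_eq k).2, ← hk, ← (V_two l).2]
    refine Pool.Agent.H447R2.ML.rough_U 2 (by norm_num) hl h5 (fun h => ?_) rfl
    have h8 : l ∣ 2 ^ 3 := by norm_num at h ⊢; exact h
    exact hd2 (hl.dvd_of_dvd_pow h8)

/-- The Pell numbers. -/
def pell : ℕ → ℕ
  | 0 => 0
  | 1 => 1
  | (n + 2) => 2 * pell (n + 1) + pell n

lemma pell_eq (l : ℕ) : (sN l).2 = pell l := by
  induction l using Nat.twoStepInduction with
  | zero => rfl
  | one => rfl
  | more n h1 h2 =>
    simp only [pell, ← h1, ← h2]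
    simp only [sN]
    ring

/-- `(P y k, R y k)` is the orbit of the real point `(y, √((1 + y²) / 2))` of the hyperbola
`p² - 2 r² = -1`. At `y = 1` the second coordinates are the Pell numbers with odd index and nothing
is removed for primes `l ≥ 5`; for almost every `y` the second coordinates have the expected number of
prime values, with a square root error term, and for every set of primes the number of prime values
is finite or infinite according to the weight of the set. -/
theorem result :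
    (∀ y : ℝ, ∀ k : ℕ, P y k ^ 2 - 2 * R y k ^ 2 = -1 ∧ 0 < R y k) ∧
    (∀ k : ℕ, R 1 k = pell (2 * k + 1)) ∧
    (∀ l : ℕ, l.Prime → 5 ≤ l → W (R 1) l = pell l) ∧
    (∀ᵐ y : ℝ,
      (fun n : ℕ => (M Set.univ (R y) n : ℝ) - Real.exp Real.eulerMascheroniConstant /
        Real.log (1 + Real.sqrt 2) * Real.log n) =O[atTop]
      (fun n : ℕ => Real.sqrt (Real.log n) * (Real.log (Real.log n)) ^ ((5 : ℝ) / 2))) ∧
    (∀ S : Set ℕ, Tendsto (w S) atTop atTop → ∀ᵐ y : ℝ,
      (fun n : ℕ => (M S (R y) n : ℝ) - Real.exp Real.eulerMascheroniConstant /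
        Real.log (1 + Real.sqrt 2) * w S n) =O[atTop]
      (fun n : ℕ => Real.sqrt (w S n * Real.log (Real.log n)) *
        (Real.log (w S n * Real.log (Real.log n))) ^ 2)) ∧
    (∀ S : Set ℕ, ∀ᵐ y : ℝ,
      ({l : ℕ | l.Prime ∧ l ≠ 2 ∧ l ∈ S ∧ (W (R y) l).Prime}.Infinite ↔
        Tendsto (w S) atTop atTop)) := by
  have hV : ∀ S, w S = Pool.Agent.TH888.R.VS S := fun S => funext fun n => w_eq S n
  have hF : R = P ∨ R = R := by right; rfl
  refine ⟨fun y k => ?_, fun k => by rw [(one_eq k).2, pell_eq],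
    fun l hl h5 => by rw [(W_one hl h5).2, pell_eq], ?_, fun S hS => ?_, fun S => ?_⟩
  · show (orbit _ k).1 ^ 2 - 2 * (orbit _ k).2 ^ 2 = -1 ∧ 0 < (orbit _ k).2
    rw [orbit_eq]
    exact orb_norm y k
  · filter_upwards [pt hF Set.univ] with y hy
    obtain ⟨B, hB, h⟩ := hy.law Pool.Agent.TH888.R.VS_univ_tendsto
    simp only [M_eq]
    exact Pool.Agent.TH888.R.bigO_all hB h
  · rw [hV] at hS ⊢
    filter_upwards [pt hF S] with y hy
    obtain ⟨B, hB, h⟩ := hy.law hS
    simp only [M_eq]
    exact Pool.Agent.TH888.R.bigO_set hB hS h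
  · rw [hV]
    filter_upwards [pt hF S] with y hy
    have hset : {l : ℕ | l.Prime ∧ l ≠ 2 ∧ l ∈ S ∧ (W (R y) l).Prime} =
        {l : ℕ | l.Prime ∧ l ∈ S ∧
          (Pool.Agent.H305R2.roughPart l (seq (R y) l)).Prime} := by
      ext l
      show (l.Prime ∧ l ≠ 2 ∧ l ∈ S ∧ (W (R y) l).Prime) ↔ (l.Prime ∧ l ∈ S ∧ _)
      rw [prime_seq]
      tauto
    rw [hset]
    constructor
    · intro hi
      by_contra hn
      exact hi (hy.fin hn)
    · exact hy.inf

end Pool.Agent.Results.MP_c66c79_nt.RealPoints
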